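import Mathlib

/-!
# The Hoffman-Singleton graph

Ten 5-cycles `P_0, ..., P_4` and `Q_0, ..., Q_4`: the vertex `(false, k, i)` is the vertex `i` of
`P_k` and `(true, k, i)` is the vertex `i` of `Q_k`.
-/

set_option autoImplicit false

namespace Pool.Agent.Helper81x.HS

/-- the adjacency of the Hoffman-Singleton graph: in `P_k`, `i` is adjacent to `i + 2` and `i - 2`; in
`Q_k`, `i` is adjacent to `i + 1` and `i - 1`; the vertex `i` of `P_j` is adjacent to the vertex
`j * k + i` of `Q_k` -/
def hsAdj : Bool × ZMod 5 × ZMod 5 → Bool × ZMod 5 × ZMod 5 → Prop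
  | (false, k, i), (false, k', i') => k = k' ∧ (i' = i + 2 ∨ i' = i - 2)
  | (true, k, i), (true, k', i') => k = k' ∧ (i' = i + 1 ∨ i' = i - 1)
  | (false, j, i), (true, k, l) => l = j * k + i
  | (true, k, l), (false, j, i) => l = j * k + i

instance : DecidableRel hsAdj := fun x y =>
  match x, y with
  | (false, k, i), (false, k', i') => inferInstanceAs (Decidable (k = k' ∧ (i' = i + 2 ∨ i' = i - 2)))
  | (true, k, i), (true, k', i') => inferInstanceAs (Decidable (k = k' ∧ (i' = i + 1 ∨ i' = i - 1)))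
  | (false, j, i), (true, k, l) => inferInstanceAs (Decidable (l = j * k + i))
  | (true, k, l), (false, j, i) => inferInstanceAs (Decidable (l = j * k + i))

/-- the Hoffman-Singleton graph -/
def hoffmanSingleton : SimpleGraph (Bool × ZMod 5 × ZMod 5) where
  Adj := hsAdj
  symm := ⟨by
    rintro ⟨_ | _, k, i⟩ ⟨_ | _, k', i'⟩ h
    · obtain ⟨h1, h2 | h2⟩ := h
      · exact ⟨h1.symm, Or.inr (by rw [h2]; ring)⟩
      · exact ⟨h1.symm, Or.inl (by rw [h2]; ring)⟩
    · exact h
    · exact h
    · obtain ⟨h1, h2 | h2⟩ := h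
      · exact ⟨h1.symm, Or.inr (by rw [h2]; ring)⟩
      · exact ⟨h1.symm, Or.inl (by rw [h2]; ring)⟩⟩
  loopless := ⟨by
    rintro ⟨_ | _, k, i⟩ h
    · obtain ⟨_, h | h⟩ := h
      · revert h; revert i; decide
      · revert h; revert i; decide
    · obtain ⟨_, h | h⟩ := h
      · revert h; revert i; decide
      · revert h; revert i; decide⟩

end Pool.Agent.Helper81x.HS
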