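import Pool.Agent.Helper81x.HS.Defs

/-!
# Six edge-disjoint copies of the Hoffman-Singleton graph
-/

set_option autoImplicit false

namespace Pool.Agent.Helper81x.HS

/-- the placements, digits to the base 64 -/
def tab : Fin 6 → ℕ := ![
  0x2a190591161a488949a56137cfae04ac54a704b8e90b25ac1bc47b688de6430af3179cd741,
  0xb25ac1bc474df3eb812b2a190591161b688de64309529c12e3a4a488949a562f3179cd741,
  0x1529c12e3a4a8641644584b25ac1bc47a488949a562da237990c24df3eb812b2f3179cd741,
  0x2da237990c22c96b06f11d529c12e3a44df3eb812b29222526958a8641644586f3179cd741,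
  0x2922252695854a704b8e92da237990c2a864164458537cfae04ac2c96b06f11ef3179cd741,
  0x137cfae04acb688de6430a92225269582c96b06f11ea19059116154a704b8e92f3179cd741]

/-- the vertex with the number `c` -/
def dec (c : ℕ) : Bool × ZMod 5 × ZMod 5 :=
  (decide (25 ≤ c), ((c / 5 : ℕ) : ZMod 5), ((c : ℕ) : ZMod 5))

/-- the placement of the copy `t` -/
def pl (t : Fin 6) (u : Fin 50) : Bool × ZMod 5 × ZMod 5 := dec (tab t / 64 ^ u.val % 64)

/-- the permutation of order six -/
def gf (u : Fin 50) : Fin 50 :=
  if u.val = 49 then u else Fin.ofNat 50 (7 * (3 * (u.val / 7) % 7) + u.val % 7)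

/-- its inverse -/
def gi (u : Fin 50) : Fin 50 :=
  if u.val = 49 then u else Fin.ofNat 50 (7 * (5 * (u.val / 7) % 7) + u.val % 7)

/-- the permutation of order seven -/
def hf (u : Fin 50) : Fin 50 :=
  if u.val = 49 then u else Fin.ofNat 50 (7 * (u.val / 7) + (u.val + 1 - 7 * (u.val / 7)) % 7)

/-- its inverse -/
def hi (u : Fin 50) : Fin 50 :=
  if u.val = 49 then u else Fin.ofNat 50 (7 * (u.val / 7) + (u.val + 6 - 7 * (u.val / 7)) % 7)

/-- the permutation of order six -/
def gp : Equiv.Perm (Fin 50) := ⟨gf, gi, by decide +kernel, by decide +kernel⟩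

/-- the permutation of order seven -/
def hp : Equiv.Perm (Fin 50) := ⟨hf, hi, by decide +kernel, by decide +kernel⟩

theorem pl_inj : ∀ t : Fin 6, ∀ u v : Fin 50, pl t u = pl t v → u = v := by decide +kernel

theorem pl_g : ∀ t : Fin 6, ∀ u : Fin 50, pl (t + 1) (gf u) = pl t u := by decide +kernel

set_option maxRecDepth 100000 in
theorem disj : ∀ u v : Fin 50,
    ((List.finRange 6).filter (fun t => decide (hsAdj (pl t u) (pl t v)))).length ≤ 1 := by
  decide +kernel

set_option maxRecDepth 100000 in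
theorem aut_h : ∀ t : Fin 6, ∀ u v : Fin 50,
    (hsAdj (pl t (hf u)) (pl t (hf v)) ↔ hsAdj (pl t u) (pl t v)) := by
  decide +kernel

end Pool.Agent.Helper81x.HS
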